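import Pool.Agent.W544.PG.Defs4
set_option autoImplicit false

/-!
# Project PG, part SUB: the restriction of a Hodge structure to a block of coordinates
-/

open Matrix Finset Module

namespace Pool.Agent.W571.PG

open Pool.Agent.W544.PG

section
variable {n k : ℕ} {e : Fin k → Fin n} (he : Function.Injective e)
include he

theorem sum_block {M : Type} [AddCommMonoid M] (f : Fin n → M)
    (h : ∀ b, (∀ i, e i ≠ b) → f b = 0) : ∑ b, f b = ∑ i, f (e i) := by
  symm
  refine Fintype.sum_of_injective e he (fun i => f (e i)) f ?_ (fun i => rfl)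
  intro b hb
  exact h b (fun i hi => hb ⟨i, hi⟩)

theorem mul_sub_left {R : Type} [CommRing R] (A B : Matrix (Fin n) (Fin n) R)
    (h : ∀ a b, (∀ i, e i ≠ b) → A (e a) b = 0) :
    (A * B).submatrix e e = A.submatrix e e * B.submatrix e e := by
  ext a c
  rw [submatrix_apply, mul_apply, mul_apply, sum_block he]
  · rfl
  · intro b hb
    rw [h a b hb, zero_mul]

theorem mul_sub_right {R : Type} [CommRing R] (A B : Matrix (Fin n) (Fin n) R)
    (h : ∀ a b, (∀ i, e i ≠ b) → B b (e a) = 0) :
    (A * B).submatrix e e = A.submatrix e e * B.submatrix e e := by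
  ext a c
  rw [submatrix_apply, mul_apply, mul_apply, sum_block he]
  · rfl
  · intro b hb
    rw [h c b hb, mul_zero]

theorem form_sub (A : Matrix (Fin n) (Fin n) ℂ) (v : Fin k → ℂ) :
    star (Function.extend e v 0) ⬝ᵥ (A *ᵥ (Function.extend e v 0)) =
      star v ⬝ᵥ (A.submatrix e e *ᵥ v) := by
  have h0 : ∀ b, (∀ i, e i ≠ b) → Function.extend e v 0 b = 0 := by
    intro b hb
    rw [Function.extend_apply']
    · rfl
    · rintro ⟨i, hi⟩
      exact hb i hi
  unfold dotProduct
  rw [sum_block he]
  · refine Finset.sum_congr rfl (fun i _ => ?_)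
    congr 1
    · change star (Function.extend e v 0 (e i)) = star (v i)
      rw [he.extend_apply]
    · unfold mulVec dotProduct
      rw [sum_block he]
      · refine Finset.sum_congr rfl (fun j _ => ?_)
        rw [he.extend_apply]
        rfl
      · intro b hb
        rw [h0 b hb, mul_zero]
  · intro b hb
    change star (Function.extend e v 0 b) * _ = 0
    rw [h0 b hb, star_zero, zero_mul]

end

/-- (SUB) -/
theorem sub : S_sub := by
  intro n k T e he h
  have hQ : ∀ a b, (∀ i, e i ≠ b) → mC T.Q (e a) b = 0 := by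
    intro a b hb
    change ((T.Q (e a) b : ℚ) : ℂ) = 0
    rw [(h a b hb).1, Rat.cast_zero]
  have hx : ∀ a b, (∀ i, e i ≠ b) → T.x (e a) b = 0 := fun a b hb => (h a b hb).2.1
  have hx' : ∀ a b, (∀ i, e i ≠ b) → T.x b (e a) = 0 := fun a b hb => (h a b hb).2.2
  have hxt : ∀ a b, (∀ i, e i ≠ b) → T.xᵀ (e a) b = 0 := fun a b hb => (h a b hb).2.2
  have hmC : mC (T.Q.submatrix e e) = (mC T.Q).submatrix e e := rfl
  have hxx : T.x.submatrix e e * T.x.submatrix e e = (T.x * T.x).submatrix e e :=
    (mul_sub_left he _ _ hx).symm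
  refine ⟨⟨T.Q.submatrix e e, ?_, T.x.submatrix e e, ?_, ?_, ?_, ?_⟩, rfl, rfl⟩
  · rw [transpose_submatrix, T.symm]
  · rw [hxx, ← mul_sub_right he _ _ hx', T.cube]
  · ext a b
    have h1 := congrFun (congrFun T.real (e a)) (e b)
    exact h1
  · rw [hmC, transpose_submatrix, ← mul_sub_left he _ _ hxt, ← mul_sub_left he _ _ hQ]
    ext a b
    exact congrFun (congrFun T.skew (e a)) (e b)
  · intro v hv
    have hw : Function.extend e v 0 ≠ 0 := by
      intro h1
      apply hv
      funext i
      have h2 := congrFun h1 (e i)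
      rw [he.extend_apply] at h2
      exact h2
    have h1 := T.pos _ hw
    rw [form_sub he, mul_sub_left he _ _ hQ] at h1
    have h2 : ((2 : ℂ) • (T.x * T.x) - 1).submatrix e e =
        (2 : ℂ) • (T.x.submatrix e e * T.x.submatrix e e) - 1 := by
      rw [hxx]
      ext a b
      simp only [submatrix_apply, Matrix.sub_apply, Matrix.smul_apply, one_apply, he.eq_iff]
    rw [h2] at h1
    exact h1

end Pool.Agent.W571.PG
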